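import Pool.Graph.R_seed8.R280.EllOne

/-!
# Projective sequence lattices between `ℓ_1` and `ℓ_∞`-like norms

For a sequence `a` with `a 0 = 1`, `a n > 0` and `∑_{n ≥ 1} a n ≤ 1`, `P_a` is the space `ℓ_1` with the
norm `sup {∑ w_n |x_n| : 0 ≤ w_n ≤ 1, ∑ a_n w_n ≤ 1}`.  We show that `P_a` is Dedekind complete and
projective (the method is that of the library file for `a_n = 2^{-n}`), and that it is not an
`ℓ_1`-sum of finite-dimensional lattices.
-/

set_option autoImplicit false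

open Pool.Agent.R280.BLat Set Topology Filter
open scoped ENNReal

universe u v w

namespace Pool.Agent.KS6_37.BL

/-- the admissible sequences -/
structure Wt (a : ℕ → ℝ) : Prop where
  zero : a 0 = 1
  pos : ∀ n, 0 < a n
  sum_le : ∀ F : Finset ℕ, 0 ∉ F → ∑ n ∈ F, a n ≤ 1

namespace Wt
variable {a : ℕ → ℝ}

lemma le_one (ha : Wt a) (n : ℕ) : a n ≤ 1 := by
  rcases Nat.eq_zero_or_pos n with rfl | hn
  · exact ha.zero.le
  · have := ha.sum_le {n} (by simp; omega)
    simpa using this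

lemma sum_le_two (ha : Wt a) (F : Finset ℕ) : ∑ n ∈ F, a n ≤ 2 := by
  classical
  have h1 : ∑ n ∈ F, a n ≤ ∑ n ∈ insert 0 (F.erase 0), a n := by
    refine Finset.sum_le_sum_of_subset_of_nonneg ?_ fun i _ _ => (ha.pos i).le
    intro i hi
    rw [Finset.mem_insert, Finset.mem_erase]
    by_cases h : i = 0
    · exact Or.inl h
    · exact Or.inr ⟨h, hi⟩
  rw [Finset.sum_insert (Finset.notMem_erase 0 F), ha.zero] at h1
  have h2 := ha.sum_le (F.erase 0) (Finset.notMem_erase 0 F)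
  linarith

lemma summable (ha : Wt a) : Summable a :=
  summable_of_sum_le (fun n => (ha.pos n).le) ha.sum_le_two

end Wt

/-- the weighted total -/
noncomputable def tot (a : ℕ → ℝ) (w : ℕ →₀ ℝ) : ℝ := w.sum fun n c => a n * c

lemma tot_add (a : ℕ → ℝ) (v w : ℕ →₀ ℝ) : tot a (v + w) = tot a v + tot a w := by
  classical
  unfold tot
  rw [Finsupp.sum_add_index]
  · intro i _; rw [mul_zero]
  · intro i _ b c; rw [mul_add]

lemma tot_single (a : ℕ → ℝ) (n : ℕ) (c : ℝ) : tot a (Finsupp.single n c) = a n * c := by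
  unfold tot
  rw [Finsupp.sum_single_index]
  rw [mul_zero]

/-- the weights -/
def WP (a : ℕ → ℝ) : Set (ℕ →₀ ℝ) := {w | (∀ n, 0 ≤ w n) ∧ (∀ n, w n ≤ 1) ∧ tot a w ≤ 1}

lemma single_mem_WP {a : ℕ → ℝ} (ha : Wt a) (n : ℕ) : Finsupp.single n (1 : ℝ) ∈ WP a := by
  classical
  refine ⟨fun j => ?_, fun j => ?_, ?_⟩
  · rw [Finsupp.single_apply]; split_ifs <;> norm_num
  · rw [Finsupp.single_apply]; split_ifs <;> norm_num
  · rw [tot_single, mul_one]
    exact ha.le_one n

/-- the lattice `P_a` -/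
noncomputable def PP {a : ℕ → ℝ} (ha : Wt a) : FLat ℕ := fullLat (WP a) (fun _ hw => hw.1)
  (fun n => ⟨Finsupp.single n 1, single_mem_WP ha n, by simp⟩)

lemma pr_single' (n : ℕ) (c : ℝ) (x : ℕ → ℝ) : pr (Finsupp.single n c) x = c * |x n| := by
  unfold pr
  rw [Finsupp.sum_single_index]
  rw [zero_mul]

lemma pr_add' (v w : ℕ →₀ ℝ) (x : ℕ → ℝ) : pr (v + w) x = pr v x + pr w x := by
  classical
  unfold pr
  rw [Finsupp.sum_add_index]
  · intro i _; rw [zero_mul]
  · intro i _ a b; rw [add_mul]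

lemma pr_sum' (F : Finset ℕ) (c : ℝ) (x : ℕ → ℝ) :
    pr (∑ n ∈ F, Finsupp.single n c) x = ∑ n ∈ F, c * |x n| := by
  classical
  induction F using Finset.induction_on with
  | empty => simp [pr]
  | insert i F hi ih => rw [Finset.sum_insert hi, Finset.sum_insert hi, pr_add', ih, pr_single']

lemma tot_sum (a : ℕ → ℝ) (F : Finset ℕ) (c : ℝ) :
    tot a (∑ n ∈ F, Finsupp.single n c) = ∑ n ∈ F, a n * c := by
  classical
  induction F using Finset.induction_on with
  | empty => simp [tot]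
  | insert i F hi ih => rw [Finset.sum_insert hi, Finset.sum_insert hi, tot_add, ih, tot_single]

open Classical in
lemma sum_single_apply (F : Finset ℕ) (c : ℝ) (j : ℕ) :
    (∑ n ∈ F, Finsupp.single n c) j = if j ∈ F then c else 0 := by
  rw [Finsupp.finsetSum_apply]
  simp [Finsupp.single_apply]

section
variable {a : ℕ → ℝ} (ha : Wt a)
include ha

/-- the basic lower bound for the norm -/
lemma bound_norm (x : (PP ha).Space) (F : Finset ℕ) (hF : 0 ∉ F) :
    |x.fn 0| + ∑ n ∈ F, (|x.fn n| - a n * |x.fn 0|) ≤ ‖x‖ := by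
  classical
  set g := ∑ n ∈ F, a n with hg
  have hg0 : 0 ≤ g := Finset.sum_nonneg fun n _ => (ha.pos n).le
  have hg1 : g ≤ 1 := ha.sum_le F hF
  set w : ℕ →₀ ℝ := Finsupp.single 0 (1 - g) + ∑ n ∈ F, Finsupp.single n 1 with hw
  have hwapp : ∀ j, w j = (if 0 = j then 1 - g else 0) + (if j ∈ F then 1 else 0) := by
    intro j
    rw [hw, Finsupp.add_apply, Finsupp.single_apply, sum_single_apply]
  have hmem : w ∈ WP a := by
    refine ⟨fun j => ?_, fun j => ?_, ?_⟩
    · rw [hwapp]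
      split_ifs <;> linarith
    · rw [hwapp]
      by_cases hj : 0 = j
      · subst hj
        rw [if_pos rfl, if_neg hF]
        linarith
      · rw [if_neg hj]
        split_ifs <;> norm_num
    · rw [hw, tot_add, tot_single, tot_sum]
      simp only [mul_one, ha.zero, one_mul]
      rw [← hg]
      linarith
  refine le_trans (le_of_eq ?_) (FLat.pr_le x (show w ∈ (PP ha).W from hmem))
  rw [hw, pr_add', pr_single', pr_sum']
  simp only [one_mul]
  rw [Finset.sum_sub_distrib, ← Finset.sum_mul, ← hg]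
  ring

/-- comparison with the norm of `ℓ_1` -/
lemma sum_abs_le {δ : ℝ} (hδ0 : 0 ≤ δ) (hδ : ∀ F : Finset ℕ, 0 ∉ F → ∑ n ∈ F, a n ≤ δ)
    (x : (PP ha).Space) (F : Finset ℕ) : ∑ i ∈ F, |x.fn i| ≤ (1 + δ) * ‖x‖ := by
  classical
  have hδ1 : 0 < 1 + δ := by linarith
  set w : ℕ →₀ ℝ := ∑ n ∈ F, Finsupp.single n (1 + δ)⁻¹ with hw
  have hi1 : (1 + δ)⁻¹ ≤ 1 := inv_le_one_of_one_le₀ (by linarith)
  have hi0 : 0 ≤ (1 + δ)⁻¹ := (inv_pos.2 hδ1).le
  have hmem : w ∈ WP a := by
    refine ⟨fun j => ?_, fun j => ?_, ?_⟩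
    · rw [hw, sum_single_apply]; split_ifs
      · exact hi0
      · exact le_rfl
    · rw [hw, sum_single_apply]; split_ifs
      · exact hi1
      · exact zero_le_one
    · rw [hw, tot_sum, ← Finset.sum_mul]
      have h1 : ∑ n ∈ F, a n ≤ 1 + δ := by
        have h1 : ∑ n ∈ F, a n ≤ ∑ n ∈ insert 0 (F.erase 0), a n := by
          refine Finset.sum_le_sum_of_subset_of_nonneg ?_ fun i _ _ => (ha.pos i).le
          intro i hi
          rw [Finset.mem_insert, Finset.mem_erase]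
          by_cases h : i = 0
          · exact Or.inl h
          · exact Or.inr ⟨h, hi⟩
        rw [Finset.sum_insert (Finset.notMem_erase 0 F), ha.zero] at h1
        have h2 := hδ (F.erase 0) (Finset.notMem_erase 0 F)
        linarith
      calc (∑ n ∈ F, a n) * (1 + δ)⁻¹ ≤ (1 + δ) * (1 + δ)⁻¹ := mul_le_mul_of_nonneg_right h1 hi0
        _ = 1 := mul_inv_cancel₀ hδ1.ne'
  have h1 := FLat.pr_le x (show w ∈ (PP ha).W from hmem)
  rw [hw, pr_sum', ← Finset.mul_sum] at h1
  rw [inv_mul_le_iff₀ hδ1] at h1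
  exact h1

lemma isL1Type_PP : IsL1Type (PP ha) where
  unit_mem n := by
    refine ⟨1, fun w hw => ?_⟩
    exact pr_single_le n 1 (fun i hi => by rw [Pi.single_apply, if_neg hi]) (by simp) (hw.1 n)
      (hw.2.1 n)
  le_one w hw n := hw.2.1 n
  exists_bound := ⟨1 + 1, sum_abs_le ha zero_le_one ha.sum_le⟩

end

/-- the sum of disjoint elements below `z` is below `z` -/
lemma sum_le_of_disj {X : Type u} [NormedAddCommGroup X] [NormedSpace ℝ X] [Lattice X]
    [BanachLattice X] {a : ℕ → X} (ha : ∀ n, 0 ≤ a n) (hd : ∀ m n, m ≠ n → a m ⊓ a n = 0) {z : X}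
    (hz0 : 0 ≤ z) (hz : ∀ n, a n ≤ z) (N : ℕ) : ∑ n ∈ Finset.range N, a n ≤ z := by
  induction N with
  | zero => simpa using hz0
  | succ N ih =>
    rw [Finset.sum_range_succ]
    have h1 : a N ⊓ (∑ n ∈ Finset.range N, a n) = 0 :=
      disj_sum _ (ha N) ha fun n hn => hd N n (by have := Finset.mem_range.1 hn; omega)
    have h2 := inf_add_sup (a N) (∑ n ∈ Finset.range N, a n)
    rw [h1, zero_add] at h2
    rw [add_comm, ← h2]
    exact sup_le (hz N) ih

/-- `P_a` is projective -/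
theorem isProjective_PP {a : ℕ → ℝ} (ha : Wt a) : IsProjective.{0, v} (PP ha).Space := by
  intro X Y _ _ _ _ _ _ _ _ Q hQ T hT ε hε
  have hL := isL1Type_PP ha
  set M := (1 + ε) * ‖T‖ with hM
  have hM0 : 0 ≤ M := by positivity
  have hpos : ∀ n, 0 ≤ a n := fun n => (ha.pos n).le
  have hipos : ∀ n, 0 ≤ (a n)⁻¹ := fun n => (inv_pos.2 (ha.pos n)).le
  have hyd : ∀ m n, m ≠ n → T (hL.e m) ⊓ T (hL.e n) = 0 := by
    intro m n h
    rw [← (hT _ _).2, hL.e_disj h, map_zero]
  have hyn : ∀ n, ‖T (hL.e n)‖ ≤ ‖T‖ := fun n => by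
    have h1 := T.le_opNorm (hL.e n)
    exact h1.trans (mul_le_of_le_one_right (norm_nonneg _) (hL.norm_e_le n))
  obtain ⟨x, hx0, hxd, hxQ, hxn⟩ := hQ.exists_disjoint_lift (fun n => hT.map_pos (hL.e_nonneg n))
    hyd hyn hε
  -- the element `(a n)_n`
  have hwmem : (fun n : ℕ => a n) ∈ (PP ha).S := by
    refine ⟨1, fun w hw => ?_⟩
    refine le_trans (le_of_eq ?_) hw.2.2
    unfold pr tot
    refine Finset.sum_congr rfl fun n _ => ?_
    simp only
    rw [abs_of_nonneg (hpos n), mul_comm]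
  set ω : (PP ha).Space := FLat.of _ hwmem with hω
  have hω1 : ‖ω‖ ≤ 1 := by
    refine FLat.norm_le_of _ zero_le_one fun w hw => ?_
    refine le_trans (le_of_eq ?_) hw.2.2
    unfold pr tot
    refine Finset.sum_congr rfl fun n _ => ?_
    show w n * |a n| = a n * w n
    rw [abs_of_nonneg (hpos n), mul_comm]
  have hω0 : 0 ≤ ω := fun n => hpos n
  have hsx : Summable fun n : ℕ => a n • x n := by
    refine Summable.of_norm_bounded (ha.summable.mul_right M) fun n => ?_
    rw [norm_smul, Real.norm_of_nonneg (hpos n)]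
    exact mul_le_mul_of_nonneg_left (hxn n) (hpos n)
  set s := ∑' n : ℕ, a n • x n with hs
  have hterm : ∀ n : ℕ, 0 ≤ a n • x n := fun n => smul_nonneg (hpos n) (hx0 n)
  have hs0 : 0 ≤ s := tsum_nonneg hterm
  have hQs : Q s = T ω := by
    have h1 := hsx.hasSum.mapL Q
    have h2 := (hL.hasSum_unit ω).mapL T
    simp only [map_smul, hxQ] at h1 h2
    exact h1.unique h2
  have hTω : ‖T ω‖ ≤ ‖T‖ := (T.le_opNorm ω).trans (mul_le_of_le_one_right (norm_nonneg _) hω1)
  obtain ⟨z₀, hz₀, hz₀Q, hz₀n⟩ := hQ.exists_pos_lift' (hT.map_pos hω0) hTω hε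
  set z := z₀ ⊓ s with hz
  have hz0 : 0 ≤ z := le_inf hz₀ hs0
  have hzs : z ≤ s := inf_le_right
  have hzQ : Q z = T ω := by rw [hz, (hQ.1 _ _).2, hz₀Q, hQs, inf_idem]
  have hzn : ‖z‖ ≤ M := (norm_le_of_nonneg hz0 inf_le_left).trans hz₀n
  set j := s - z with hj
  have hj0 : 0 ≤ j := sub_nonneg.2 hzs
  have hjQ : Q j = 0 := by rw [hj, map_sub, hQs, hzQ, sub_self]
  -- the new lifts
  set x' : ℕ → X := fun n => (x n - (a n)⁻¹ • j) ⊔ 0 with hx'
  have hx'0 : ∀ n, 0 ≤ x' n := fun n => le_sup_right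
  have hx'x : ∀ n, x' n ≤ x n := fun n =>
    sup_le (sub_le_self _ (smul_nonneg (hipos n) hj0)) (hx0 n)
  have hx'd : ∀ m n, m ≠ n → x' m ⊓ x' n = 0 := fun m n h =>
    disj_mono (hx'0 m) (hx'0 n) (hx'x m) (hx'x n) (hxd m n h)
  have hx'Q : ∀ n, Q (x' n) = T (hL.e n) := by
    intro n
    rw [hx']
    simp only
    rw [(hQ.1 _ _).1, map_sub, map_smul, hjQ, smul_zero, sub_zero, map_zero, hxQ]
    exact sup_eq_left.2 (hT.map_pos (hL.e_nonneg n))
  have hx'n : ∀ n, ‖x' n‖ ≤ M := fun n => (norm_le_of_nonneg (hx'0 n) (hx'x n)).trans (hxn n)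
  -- the weighted sums are below `z`
  have hle : ∀ n, a n • x' n ≤ z := by
    intro n
    have hne : a n ≠ 0 := (ha.pos n).ne'
    have h1 : a n • x' n ≤ (a n • x n - j) ⊔ 0 := by
      have h2 : x' n ≤ (a n)⁻¹ • ((a n • x n - j) ⊔ 0) := by
        refine sup_le ?_ (smul_nonneg (hipos n) le_sup_right)
        have h3 : x n - (a n)⁻¹ • j = (a n)⁻¹ • (a n • x n - j) := by
          rw [smul_sub (a n)⁻¹ (a n • x n) j, smul_smul, inv_mul_cancel₀ hne, one_smul]
        rw [h3]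
        exact smul_le_smul_of_nonneg_left le_sup_left (hipos n)
      have h4 := smul_le_smul_of_nonneg_left h2 (hpos n)
      rw [smul_smul (a n), mul_inv_cancel₀ hne, one_smul] at h4
      exact h4
    refine h1.trans (sup_le ?_ hz0)
    have h2 : a n • x n ≤ s := hsx.le_tsum n fun k _ => hterm k
    rw [hj, sub_le_iff_le_add, add_sub_cancel]
    exact h2
  have hsumle : ∀ N : ℕ, ‖∑ n ∈ Finset.range N, a n • x' n‖ ≤ M := by
    intro N
    refine (norm_le_of_nonneg (Finset.sum_nonneg fun n _ =>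
      smul_nonneg (hpos n) (hx'0 n)) ?_).trans hzn
    refine sum_le_of_disj (fun n => smul_nonneg (hpos n) (hx'0 n)) (fun m n h => ?_) hz0
      hle N
    rw [inf_comm]
    refine disj_smul (smul_nonneg (hpos n) (hx'0 n)) (hx'0 m) ?_ (hpos m)
    rw [inf_comm]
    exact disj_smul (hx'0 m) (hx'0 n) (hx'd m n h) (hpos n)
  obtain ⟨T', hT', hsum⟩ := hL.exists_hom hx'0 hx'd hx'n
  refine ⟨T', hT', fun β => hL.comp_eq hx'Q hsum β, ?_⟩
  refine ContinuousLinearMap.opNorm_le_bound _ hM0 fun β => ?_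
  -- the norm bound for finite sums
  have hfin : ∀ N : ℕ, ‖∑ n ∈ Finset.range N, |β|.fn n • x' n‖ ≤ M * ‖β‖ := by
    intro N
    set b0 := |β.fn 0| with hb0
    have hb00 : 0 ≤ b0 := abs_nonneg _
    set c : ℕ → ℝ := fun n => (|β.fn n| - a n * b0) ⊔ 0 with hc
    have hc0 : ∀ n, 0 ≤ c n := fun n => le_sup_right
    have h1 : ∑ n ∈ Finset.range N, |β|.fn n • x' n ≤
        b0 • (∑ n ∈ Finset.range N, a n • x' n) +
          ∑ n ∈ Finset.range N, c n • x' n := by
      rw [Finset.smul_sum, ← Finset.sum_add_distrib]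
      refine Finset.sum_le_sum fun n _ => ?_
      rw [smul_smul, ← add_smul]
      refine smul_le_smul_of_nonneg_right ?_ (hx'0 n)
      rw [FLat.abs_fn]
      have h2 : |β.fn n| - a n * b0 ≤ c n := le_sup_left
      linarith
    have h2 : b0 + ∑ n ∈ Finset.range N, c n ≤ ‖β‖ := by
      classical
      set F := (Finset.range N).filter fun n => 0 < c n with hF
      have h3 : ∑ n ∈ Finset.range N, c n = ∑ n ∈ F, c n := by
        rw [hF, Finset.sum_filter_of_ne]
        intro n _ hn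
        exact lt_of_le_of_ne (hc0 n) (Ne.symm hn)
      have h4 : 0 ∉ F := by
        intro h
        rw [hF, Finset.mem_filter] at h
        have : c 0 = 0 := by
          rw [hc]
          simp [hb0, ha.zero]
        exact absurd h.2 (by rw [this]; exact lt_irrefl 0)
      have h5 : ∀ n ∈ F, c n = |β.fn n| - a n * b0 := by
        intro n hn
        rw [hF, Finset.mem_filter] at hn
        have h6 : 0 < c n := hn.2
        rw [hc] at h6 ⊢
        simp only at h6 ⊢
        rcases le_total (|β.fn n| - a n * b0) 0 with h7 | h7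
        · rw [sup_eq_right.2 h7] at h6
          exact absurd h6 (lt_irrefl _)
        · rw [sup_eq_left.2 h7]
      rw [h3, Finset.sum_congr rfl h5]
      exact bound_norm ha β F h4
    have h3 : 0 ≤ ∑ n ∈ Finset.range N, |β|.fn n • x' n :=
      Finset.sum_nonneg fun n _ => smul_nonneg (by rw [FLat.abs_fn]; exact abs_nonneg _) (hx'0 n)
    calc ‖∑ n ∈ Finset.range N, |β|.fn n • x' n‖
        ≤ ‖b0 • (∑ n ∈ Finset.range N, a n • x' n) +
          ∑ n ∈ Finset.range N, c n • x' n‖ := norm_le_of_nonneg h3 h1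
      _ ≤ ‖b0 • (∑ n ∈ Finset.range N, a n • x' n)‖ +
          ‖∑ n ∈ Finset.range N, c n • x' n‖ := norm_add_le _ _
      _ ≤ b0 * M + ∑ n ∈ Finset.range N, c n * M := by
          refine add_le_add ?_ ?_
          · rw [norm_smul, Real.norm_of_nonneg hb00]
            exact mul_le_mul_of_nonneg_left (hsumle N) hb00
          · refine (norm_sum_le _ _).trans (Finset.sum_le_sum fun n _ => ?_)
            rw [norm_smul, Real.norm_of_nonneg (hc0 n)]
            exact mul_le_mul_of_nonneg_left (hx'n n) (hc0 n)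
      _ = M * (b0 + ∑ n ∈ Finset.range N, c n) := by
          rw [← Finset.sum_mul]; ring
      _ ≤ M * ‖β‖ := mul_le_mul_of_nonneg_left h2 hM0
  have h1 : ‖T' |β|‖ ≤ M * ‖β‖ := by
    have h2 := (hsum |β|).tendsto_sum_nat.norm
    exact le_of_tendsto h2 (Eventually.of_forall hfin)
  rw [hT'.map_abs] at h1
  have h2 : ‖T' β‖ ≤ ‖|T' β|‖ := HasSolidNorm.solid (by rw [abs_abs])
  exact h2.trans h1

section
variable {a : ℕ → ℝ} (ha : Wt a)
include ha

/-- `P_a` is Dedekind complete -/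
lemma exists_isLUB (A : Set (PP ha).Space) (hA : A.Nonempty) (hb : BddAbove A) :
    ∃ s, IsLUB A s := by
  obtain ⟨x₀, hx₀⟩ := hA
  obtain ⟨b, hb⟩ := hb
  set f : ℕ → ℝ := fun i => sSup ((fun x : (PP ha).Space => x.fn i) '' A) with hf
  have hbdd : ∀ i, BddAbove ((fun x : (PP ha).Space => x.fn i) '' A) := by
    intro i
    refine ⟨b.fn i, ?_⟩
    rintro _ ⟨x, hx, rfl⟩
    exact hb hx i
  have h1 : ∀ x ∈ A, ∀ i, x.fn i ≤ f i := fun x hx i => le_csSup (hbdd i) ⟨x, hx, rfl⟩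
  have h2 : ∀ c : (PP ha).Space, (∀ x ∈ A, x ≤ c) → ∀ i, f i ≤ c.fn i := by
    intro c hc i
    refine csSup_le ⟨_, ⟨x₀, hx₀, rfl⟩⟩ ?_
    rintro _ ⟨x, hx, rfl⟩
    exact hc x hx i
  have hmem : f ∈ (PP ha).S := by
    obtain ⟨C, hC⟩ := (PP ha).bdd x₀.fn x₀.2
    obtain ⟨D, hD⟩ := (PP ha).bdd b.fn b.2
    refine ⟨C + D, fun w hw => ?_⟩
    refine le_trans ?_ (add_le_add (hC w hw) (hD w hw))
    rw [pr_eq, pr_eq, pr_eq, ← Finset.sum_add_distrib]
    refine Finset.sum_le_sum fun i _ => ?_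
    rw [← mul_add]
    refine mul_le_mul_of_nonneg_left ?_ (hw.1 i)
    have h3 := h1 x₀ hx₀ i
    have h4 := h2 b (fun x hx => hb hx) i
    rw [abs_le]
    constructor
    · linarith [neg_abs_le (x₀.fn i), abs_nonneg (b.fn i)]
    · linarith [le_abs_self (b.fn i), abs_nonneg (x₀.fn i)]
  refine ⟨FLat.of f hmem, fun x hx i => h1 x hx i, fun c hc => ?_⟩
  exact h2 c fun x hx => hc hx

lemma norm_le_one (n : ℕ) (hn : n ≠ 0) :
    ‖(isL1Type_PP ha).e 0 + a n • (isL1Type_PP ha).e n‖ ≤ 1 := by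
  have hL := isL1Type_PP ha
  refine FLat.norm_le_of _ zero_le_one fun w hw => ?_
  refine le_trans ?_ hw.2.2
  unfold pr tot
  refine Finset.sum_le_sum fun i _ => ?_
  simp only
  rw [mul_comm]
  refine mul_le_mul_of_nonneg_right ?_ (hw.1 i)
  rw [FLat.add_fn, FLat.smul_fn, hL.e_fn, hL.e_fn]
  by_cases h0 : i = 0
  · subst h0
    rw [if_pos rfl, if_neg (Ne.symm hn), ha.zero]
    simp
  · rw [if_neg h0, zero_add]
    by_cases h1 : i = n
    · subst h1
      rw [if_pos rfl, mul_one, abs_of_nonneg (ha.pos i).le]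
    · rw [if_neg h1, mul_zero, abs_zero]
      exact (ha.pos i).le

lemma norm_e (n : ℕ) : ‖(isL1Type_PP ha).e n‖ = 1 := by
  refine le_antisymm ((isL1Type_PP ha).norm_e_le n) ?_
  have h1 := FLat.pr_le ((isL1Type_PP ha).e n) (show Finsupp.single n (1 : ℝ) ∈ (PP ha).W from
    single_mem_WP ha n)
  rw [pr_single', (isL1Type_PP ha).e_fn] at h1
  simpa using h1

end

end Pool.Agent.KS6_37.BL
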