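import Pool.Agent.KS6_37.BL.Proj

set_option autoImplicit false

open Pool.Agent.R280.BLat Set Topology Filter
open scoped ENNReal

universe u v w

namespace Pool.Agent.KS6_37.BL

/-- `P` is isometrically lattice isomorphic to the `ℓ_1`-sum of a finite or countable family of
finite-dimensional Banach lattices: there is a linear isometry `φ` of the `ℓ_1`-sum onto `P` such that
`φ x ≥ 0` if and only if all coordinates of `x` are `≥ 0`. -/
def FinSum (P : Type u) [NormedAddCommGroup P] [NormedSpace ℝ P] [Lattice P] :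
    Prop :=
  ∃ (ι : Type) (_ : Countable ι) (E : ι → Type w) (_ : ∀ i, NormedAddCommGroup (E i))
    (_ : ∀ i, NormedSpace ℝ (E i)) (_ : ∀ i, Lattice (E i)),
    (∀ i, BanachLattice (E i)) ∧ (∀ i, FiniteDimensional ℝ (E i)) ∧
      ∃ φ : lp E 1 ≃ₗᵢ[ℝ] P, ∀ x : lp E 1, 0 ≤ φ x ↔ ∀ i, 0 ≤ x i

/-- `P` and `P'` are isometrically lattice isomorphic: there is a linear isometry `φ` of `P` onto
`P'` such that `φ x ≥ 0` if and only if `x ≥ 0`. -/
def IsometricLatticeIso (P : Type u) (P' : Type v) [NormedAddCommGroup P] [NormedSpace ℝ P]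
    [Lattice P] [NormedAddCommGroup P'] [NormedSpace ℝ P'] [Lattice P'] : Prop :=
  ∃ φ : P ≃ₗᵢ[ℝ] P', ∀ x : P, 0 ≤ φ x ↔ 0 ≤ x

section
variable {a : ℕ → ℝ} (ha : Wt a)
include ha

/-- in an `ℓ_1`-sum decomposition all unit vectors lie in the same summand -/
theorem concentrated {ι : Type} {E : ι → Type w} [∀ i, NormedAddCommGroup (E i)]
    [∀ i, NormedSpace ℝ (E i)] [∀ i, Lattice (E i)] (hE : ∀ i, BanachLattice (E i))
    (φ : lp E 1 ≃ₗᵢ[ℝ] (PP ha).Space) (hφ : ∀ x : lp E 1, 0 ≤ φ x ↔ ∀ i, 0 ≤ x i) :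
    ∃ i₀, ∀ n : ℕ, ∀ i, i ≠ i₀ → (φ.symm ((isL1Type_PP ha).e n)) i = 0 := by
  classical
  have hL := isL1Type_PP ha
  set c := φ.symm (hL.e 0) with hc
  have hφa : φ c = hL.e 0 := by rw [hc, LinearIsometryEquiv.apply_symm_apply]
  have ha0 : ∀ i, 0 ≤ c i := (hφ c).1 (by rw [hφa]; exact hL.e_nonneg 0)
  have hane : c ≠ 0 := by
    intro h
    rw [h, map_zero] at hφa
    have := norm_e ha 0
    rw [← hφa, norm_zero] at this
    norm_num at this
  obtain ⟨i₀, hi₀⟩ : ∃ i, c i ≠ 0 := by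
    by_contra hcon
    push Not at hcon
    exact hane (lp.ext (funext hcon))
  -- `c` is concentrated at `i₀`
  have hconc : ∀ i, i ≠ i₀ → c i = 0 := by
    set s := lp.single 1 i₀ (c i₀) with hs
    have hs0 : 0 ≤ φ s := by
      rw [hφ]
      intro i
      by_cases h : i = i₀
      · subst h
        rw [hs, lp.single_apply_self]; exact ha0 _
      · rw [hs, lp.single_apply_ne _ _ _ h]
    have hsa : φ s ≤ hL.e 0 := by
      rw [← sub_nonneg, ← hφa, ← map_sub, hφ]
      intro i
      rw [lp.coeFn_sub, Pi.sub_apply]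
      have := hE i
      by_cases h : i = i₀
      · subst h
        rw [hs, lp.single_apply_self, sub_self]
      · rw [hs, lp.single_apply_ne _ _ _ h, sub_zero]; exact ha0 i
    have hφs : φ s = (φ s).fn 0 • hL.e 0 := by
      refine FLat.Space.ext fun n => ?_
      rw [FLat.smul_fn, hL.e_fn]
      by_cases hn : n = 0
      · subst hn; rw [if_pos rfl, mul_one]
      · rw [if_neg hn, mul_zero]
        refine le_antisymm ?_ (hs0 n)
        have := hsa n
        rwa [hL.e_fn, if_neg hn] at this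
    have hst : s = (φ s).fn 0 • c := by
      apply φ.injective
      rw [map_smul, hφa]
      exact hφs
    intro i hi
    by_contra hne
    have h1 : s i = (φ s).fn 0 • c i := by
      conv_lhs => rw [hst]
      rfl
    rw [hs, lp.single_apply_ne _ _ _ hi, ← hs] at h1
    have h2 : (φ s).fn 0 = 0 := by
      rcases smul_eq_zero.1 h1.symm with h | h
      · exact h
      · exact absurd h hne
    rw [h2, zero_smul] at hst
    have h3 : s i₀ = 0 := by rw [hst]; rfl
    rw [hs, lp.single_apply_self] at h3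
    exact hi₀ h3
  have hna : ‖c‖ = ‖c i₀‖ := by
    have h1 := lp.hasSum_norm (p := 1) (by simp) c
    simp only [ENNReal.toReal_one, Real.rpow_one] at h1
    refine h1.unique ?_
    refine hasSum_single i₀ fun i hi => ?_
    rw [hconc i hi, norm_zero]
  have hna1 : 1 ≤ ‖c i₀‖ := by
    rw [← hna, ← φ.norm_map c, hφa]
    exact (norm_e ha 0).ge
  -- the other unit vectors are concentrated at `i₀`
  refine ⟨i₀, fun n i hi => ?_⟩
  rcases Nat.eq_zero_or_pos n with rfl | hn
  · exact hconc i hi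
  have hn : n ≠ 0 := by omega
  set b := φ.symm (hL.e n) with hb
  have hφb : φ b = hL.e n := by rw [hb, LinearIsometryEquiv.apply_symm_apply]
  have hb0 : ∀ i, 0 ≤ b i := (hφ b).1 (by rw [hφb]; exact hL.e_nonneg n)
  by_contra hne
  set y := c + a n • b with hy
  have hyn : ‖y‖ ≤ 1 := by
    rw [← φ.norm_map y, hy, map_add, map_smul, hφa, hφb]
    exact norm_le_one ha n hn
  have h1 := lp.hasSum_norm (p := 1) (by simp) y
  simp only [ENNReal.toReal_one, Real.rpow_one] at h1
  have h2 := sum_le_hasSum {i₀, i} (fun j _ => norm_nonneg _) h1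
  rw [Finset.sum_pair (Ne.symm hi)] at h2
  have h3 : y i = a n • b i := by
    rw [hy, lp.coeFn_add, Pi.add_apply, hconc i hi, zero_add]
    rfl
  have h4 : 0 < ‖y i‖ := by
    rw [h3, norm_pos_iff]
    exact smul_ne_zero (ha.pos n).ne' hne
  have h5 : ‖c i₀‖ ≤ ‖y i₀‖ := by
    have := hE i₀
    refine norm_le_of_nonneg (ha0 i₀) ?_
    have h6 : y i₀ = c i₀ + a n • b i₀ := by
      rw [hy, lp.coeFn_add, Pi.add_apply]
      rfl
    rw [h6]
    exact le_add_of_nonneg_right (smul_nonneg (ha.pos n).le (hb0 i₀))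
  linarith

/-- all other summands are zero -/
theorem subsingleton_summand {ι : Type} {E : ι → Type w} [∀ i, NormedAddCommGroup (E i)]
    [∀ i, NormedSpace ℝ (E i)] [∀ i, Lattice (E i)] (hE : ∀ i, BanachLattice (E i))
    (φ : lp E 1 ≃ₗᵢ[ℝ] (PP ha).Space) (hφ : ∀ x : lp E 1, 0 ≤ φ x ↔ ∀ i, 0 ≤ x i) :
    ∃ i₀, ∀ i, i ≠ i₀ → Subsingleton (E i) := by
  classical
  have hL := isL1Type_PP ha
  obtain ⟨i₀, hi₀⟩ := concentrated ha hE φ hφ
  refine ⟨i₀, fun i hi => ?_⟩
  have := hE i
  rw [subsingleton_iff_forall_eq (0 : E i)]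
  intro x
  by_contra hx
  set y := lp.single 1 i |x| with hy
  have hy0 : 0 ≤ φ y := by
    rw [hφ]
    intro j
    by_cases h : j = i
    · subst h; rw [hy, lp.single_apply_self]; exact abs_nonneg x
    · have := hE j
      rw [hy, lp.single_apply_ne _ _ _ h]
  have hyne : φ y ≠ 0 := by
    intro h
    have h1 : y = 0 := φ.injective (h.trans (map_zero φ).symm)
    have h2 : y i = 0 := by rw [h1]; rfl
    rw [hy, lp.single_apply_self] at h2
    have h3 : ‖x‖ ≤ ‖(0 : E i)‖ := HasSolidNorm.solid (by rw [h2, abs_zero])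
    rw [norm_zero] at h3
    exact hx (norm_le_zero_iff.1 h3)
  obtain ⟨m, hm⟩ : ∃ m, (φ y).fn m ≠ 0 := by
    by_contra hcon
    push Not at hcon
    exact hyne (FLat.Space.ext fun i => by rw [hcon i, FLat.zero_fn])
  have hm0 : 0 < (φ y).fn m := lt_of_le_of_ne (hy0 m) (Ne.symm hm)
  have h1 : 0 ≤ φ (y - (φ y).fn m • φ.symm (hL.e m)) := by
    rw [map_sub, map_smul, LinearIsometryEquiv.apply_symm_apply, sub_nonneg]
    intro k
    rw [FLat.smul_fn, hL.e_fn]
    by_cases h : k = m
    · subst h; rw [if_pos rfl, mul_one]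
    · rw [if_neg h, mul_zero]; exact hy0 k
  rw [hφ] at h1
  have h2 := h1 i₀
  have h3 : (y - (φ y).fn m • φ.symm (hL.e m)) i₀ =
      y i₀ - (φ y).fn m • (φ.symm (hL.e m)) i₀ := rfl
  have h4 : y i₀ = 0 := by rw [hy, lp.single_apply_ne _ _ _ (Ne.symm hi)]
  rw [h3, h4, zero_sub] at h2
  have := hE i₀
  have h5 : 0 ≤ (φ.symm (hL.e m)) i₀ :=
    (hφ _).1 (by rw [LinearIsometryEquiv.apply_symm_apply]; exact hL.e_nonneg m) i₀
  have h6 : (φ y).fn m • (φ.symm (hL.e m)) i₀ = 0 :=
    le_antisymm (neg_nonneg.1 h2) (smul_nonneg hm0.le h5)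
  have h7 : (φ.symm (hL.e m)) i₀ = 0 := (smul_eq_zero.1 h6).resolve_left hm0.ne'
  have h8 : φ.symm (hL.e m) = 0 := by
    refine lp.ext (funext fun j => ?_)
    by_cases h : j = i₀
    · subst h; exact h7
    · exact hi₀ m j h
  have h9 : ‖hL.e m‖ = 0 := by
    rw [← φ.symm.norm_map, h8, norm_zero]
  rw [norm_e ha m] at h9
  exact one_ne_zero h9

theorem not_isEll1Sum : ¬ FinSum.{0, w} (PP ha).Space := by
  classical
  rintro ⟨ι, _, E, _, _, _, hE, hfd, φ, hφ⟩
  have hL := isL1Type_PP ha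
  obtain ⟨i₀, hconc2⟩ := concentrated ha hE φ hφ
  -- contradiction with finite-dimensionality
  let ψ : E i₀ →ₗ[ℝ] (PP ha).Space := φ.toLinearEquiv.toLinearMap.comp (lp.lsingle 1 i₀)
  have hψ : ∀ n : ℕ, ψ ((φ.symm (hL.e n)) i₀) = hL.e n := by
    intro n
    have h1 : lp.single 1 i₀ ((φ.symm (hL.e n)) i₀) = φ.symm (hL.e n) := by
      refine lp.ext (funext fun i => ?_)
      by_cases h : i = i₀
      · subst h; rw [lp.single_apply_self]
      · rw [lp.single_apply_ne _ _ _ h, hconc2 n i h]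
    show φ (lp.single 1 i₀ ((φ.symm (hL.e n)) i₀)) = hL.e n
    rw [h1, LinearIsometryEquiv.apply_symm_apply]
  have hli : LinearIndependent ℝ fun n : ℕ => hL.e n := by
    rw [linearIndependent_iff']
    intro F g hg n hn
    have h1 := congrArg (fun z : (PP ha).Space => FLat.eval n z) hg
    simp only [map_sum, map_smul, map_zero, smul_eq_mul, FLat.eval_apply, hL.e_fn] at h1
    rw [Finset.sum_eq_single n] at h1
    · simpa using h1
    · intro m _ hm
      rw [if_neg (by omega), mul_zero]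
    · intro h; exact absurd hn h
  have hli2 : LinearIndependent ℝ fun n : ℕ => (φ.symm (hL.e n)) i₀ := by
    refine LinearIndependent.of_comp ψ ?_
    have : (ψ ∘ fun n : ℕ => (φ.symm (hL.e n)) i₀) = fun n : ℕ => hL.e n := by
      funext n
      exact hψ n
    rw [this]
    exact hli
  have := hfd i₀
  exact not_finite_iff_infinite.2 inferInstance (hli2.finite)

lemma e_inj {m n : ℕ} (h : (isL1Type_PP ha).e m = (isL1Type_PP ha).e n) : m = n := by
  have h1 := congrArg (fun z : (PP ha).Space => z.fn m) h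
  simp only [(isL1Type_PP ha).e_fn] at h1
  by_contra hne
  rw [if_neg hne] at h1
  simp at h1

end

section
variable {a b : ℕ → ℝ} (ha : Wt a) (hb : Wt b)
  (φ : (PP ha).Space ≃ₗᵢ[ℝ] (PP hb).Space) (hφ : ∀ x, 0 ≤ φ x ↔ 0 ≤ x)
include hφ

/-- an isometric lattice isomorphism maps unit vectors to unit vectors -/
lemma exists_map_e (n : ℕ) : ∃ m, φ ((isL1Type_PP ha).e n) = (isL1Type_PP hb).e m := by
  have hA := isL1Type_PP ha
  have hB := isL1Type_PP hb
  set y := φ (hA.e n) with hy
  have hy0 : 0 ≤ y := (hφ _).2 (hA.e_nonneg n)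
  have hyn : ‖y‖ = 1 := by rw [hy, φ.norm_map]; exact norm_e ha n
  obtain ⟨m, hm⟩ : ∃ m, y.fn m ≠ 0 := by
    by_contra hcon
    push Not at hcon
    have : y = 0 := FLat.Space.ext fun i => by rw [hcon i, FLat.zero_fn]
    rw [this, norm_zero] at hyn
    norm_num at hyn
  have hm0 : 0 ≤ y.fn m := hy0 m
  set z := y.fn m • hB.e m with hz
  have hz0 : 0 ≤ z := smul_nonneg hm0 (hB.e_nonneg m)
  have hzy : z ≤ y := by
    intro i
    rw [hz, FLat.smul_fn, hB.e_fn]
    by_cases h : i = m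
    · subst h; rw [if_pos rfl, mul_one]
    · rw [if_neg h, mul_zero]; exact hy0 i
  set t := φ.symm z with ht
  have hφt : φ t = z := by rw [ht, LinearIsometryEquiv.apply_symm_apply]
  have ht0 : 0 ≤ t := (hφ t).1 (by rw [hφt]; exact hz0)
  have hte : t ≤ hA.e n := by
    rw [← sub_nonneg, ← hφ, map_sub, hφt]
    exact sub_nonneg.2 hzy
  have htc : t = t.fn n • hA.e n := by
    refine FLat.Space.ext fun i => ?_
    rw [FLat.smul_fn, hA.e_fn]
    by_cases hi : i = n
    · subst hi; rw [if_pos rfl, mul_one]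
    · rw [if_neg hi, mul_zero]
      refine le_antisymm ?_ (ht0 i)
      have := hte i
      rwa [hA.e_fn, if_neg hi] at this
  have hzc : z = t.fn n • y := by
    rw [← hφt, htc, map_smul]
    congr 1
    rw [FLat.smul_fn, hA.e_fn, if_pos rfl, mul_one]
  have h1 : t.fn n = 1 := by
    have h2 := congrArg (fun q : (PP hb).Space => q.fn m) hzc
    simp only [hz, FLat.smul_fn, hB.e_fn] at h2
    rw [if_pos trivial, mul_one] at h2
    have h3 : (t.fn n - 1) * y.fn m = 0 := by rw [sub_mul, one_mul, ← h2, sub_self]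
    rcases mul_eq_zero.1 h3 with h | h
    · linarith
    · exact absurd h hm
  rw [h1, one_smul] at hzc
  refine ⟨m, ?_⟩
  have h2 : ‖y‖ = |y.fn m| * 1 := by
    rw [← norm_e hb m, ← Real.norm_eq_abs, ← norm_smul, ← hz, hzc]
  rw [hyn, mul_one, abs_of_nonneg hm0] at h2
  rw [← hzc, hz, ← h2, one_smul]

/-- the rigidity statement -/
theorem exists_perm : ∃ π : ℕ → ℕ, Function.Injective π ∧ π 0 = 0 ∧
    (∀ n, φ ((isL1Type_PP ha).e n) = (isL1Type_PP hb).e (π n)) ∧ ∀ n, a n ≤ b (π n) := by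
  have hA := isL1Type_PP ha
  have hB := isL1Type_PP hb
  choose π hπ using exists_map_e ha hb φ hφ
  have hinj : Function.Injective π := by
    intro m n h
    apply e_inj ha
    apply φ.injective
    rw [hπ, hπ, h]
  have hkey : ∀ n, n ≠ 0 → ‖hB.e (π 0) + a n • hB.e (π n)‖ ≤ 1 := by
    intro n hn
    have h1 := norm_le_one ha n hn
    rw [← φ.norm_map, map_add, map_smul, hπ, hπ] at h1
    exact h1
  have h0 : π 0 = 0 := by
    by_contra hne
    obtain ⟨n, hn, hπn⟩ : ∃ n, n ≠ 0 ∧ π n ≠ 0 := by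
      by_cases h : π 1 = 0
      · refine ⟨2, by norm_num, fun h2 => ?_⟩
        exact absurd (hinj (h2.trans h.symm)) (by norm_num)
      · exact ⟨1, one_ne_zero, h⟩
    have hne2 : π 0 ≠ π n := fun h => hn (hinj h).symm
    have h1 := bound_norm hb (hB.e (π 0) + a n • hB.e (π n)) {π 0, π n} (by
      rw [Finset.mem_insert, Finset.mem_singleton]
      rintro (h | h)
      · exact hne h.symm
      · exact hπn h.symm)
    rw [Finset.sum_pair hne2] at h1
    simp only [FLat.add_fn, FLat.smul_fn, hB.e_fn] at h1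
    rw [if_neg (Ne.symm hne), if_neg (Ne.symm hπn), if_neg hne2, if_neg (Ne.symm hne2)] at h1
    simp only [if_true, mul_zero, add_zero, abs_zero, sub_zero, mul_one, zero_add, abs_one] at h1
    have h2 := hkey n hn
    have h3 := ha.pos n
    rw [abs_of_pos h3] at h1
    linarith
  refine ⟨π, hinj, h0, hπ, fun n => ?_⟩
  rcases Nat.eq_zero_or_pos n with rfl | hn
  · rw [h0, ha.zero, hb.zero]
  · have hn' : n ≠ 0 := by omega
    have hk : π n ≠ 0 := fun h => hn' (hinj (h.trans h0.symm))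
    have h1 := bound_norm hb (hB.e (π 0) + a n • hB.e (π n)) {π n} (by
      rw [Finset.mem_singleton]
      exact Ne.symm hk)
    rw [Finset.sum_singleton] at h1
    simp only [FLat.add_fn, FLat.smul_fn, hB.e_fn, h0] at h1
    rw [if_neg (Ne.symm hk), if_neg hk] at h1
    simp only [if_true, mul_zero, add_zero, mul_one, zero_add, abs_one] at h1
    have h2 := hkey n hn'
    rw [h0] at h2
    have h3 := ha.pos n
    rw [abs_of_pos h3] at h1
    linarith

end

/-- isometric lattice isomorphisms `P_a ≅ P_b` exist only if `b` is a rearrangement of `a` -/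
theorem rearrangement {a b : ℕ → ℝ} (ha : Wt a) (hb : Wt b)
    (h : IsometricLatticeIso (PP ha).Space (PP hb).Space) :
    ∃ π : Equiv.Perm ℕ, π 0 = 0 ∧ ∀ n, b (π n) = a n := by
  obtain ⟨φ, hφ⟩ := h
  have hφ' : ∀ y, 0 ≤ φ.symm y ↔ 0 ≤ y := fun y => by
    rw [← hφ, LinearIsometryEquiv.apply_symm_apply]
  obtain ⟨π, -, h0, hπ, hab⟩ := exists_perm ha hb φ hφ
  obtain ⟨σ, -, -, hσ, hba⟩ := exists_perm hb ha φ.symm hφ'
  have h1 : ∀ n, σ (π n) = n := by
    intro n
    apply e_inj ha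
    rw [← hσ, ← hπ, LinearIsometryEquiv.symm_apply_apply]
  have h2 : ∀ n, π (σ n) = n := by
    intro n
    apply e_inj hb
    rw [← hπ, ← hσ, LinearIsometryEquiv.apply_symm_apply]
  refine ⟨⟨π, σ, h1, h2⟩, h0, fun n => ?_⟩
  refine le_antisymm ?_ (hab n)
  have := hba (π n)
  rwa [h1] at this

/-- conversely a rearrangement gives an isometric lattice isomorphism -/
theorem of_rearrangement {a b : ℕ → ℝ} (ha : Wt a) (hb : Wt b) (π : Equiv.Perm ℕ)
    (hπ : ∀ n, b (π n) = a n) : IsometricLatticeIso (PP ha).Space (PP hb).Space := by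
  classical
  -- weights are transported
  have key : ∀ {a b : ℕ → ℝ} (ha : Wt a) (hb : Wt b) (π : Equiv.Perm ℕ)
      (hπ : ∀ n, b (π n) = a n) (w : ℕ →₀ ℝ), w ∈ WP a →
        w.equivMapDomain π ∈ WP b := by
    intro a b ha hb π hπ w hw
    refine ⟨fun n => ?_, fun n => ?_, ?_⟩
    · rw [Finsupp.equivMapDomain_apply]; exact hw.1 _
    · rw [Finsupp.equivMapDomain_apply]; exact hw.2.1 _
    · refine le_trans (le_of_eq ?_) hw.2.2
      unfold tot
      rw [Finsupp.sum_equivMapDomain]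
      exact Finsupp.sum_congr fun n _ => by rw [hπ]
  have hpr : ∀ (π : Equiv.Perm ℕ) (w : ℕ →₀ ℝ) (x : ℕ → ℝ),
      pr (w.equivMapDomain π) (fun n => x (π.symm n)) = pr w x := by
    intro π w x
    unfold pr
    rw [Finsupp.sum_equivMapDomain]
    exact Finsupp.sum_congr fun n _ => by simp only [Equiv.symm_apply_apply]
  have hpr' : ∀ (π : Equiv.Perm ℕ) (w : ℕ →₀ ℝ) (x : ℕ → ℝ),
      pr w (fun n => x (π.symm n)) = pr (w.equivMapDomain π.symm) x := by
    intro π w x
    have h1 := hpr π (w.equivMapDomain π.symm) x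
    rw [← h1]
    congr 1
    ext n
    simp [Finsupp.equivMapDomain_apply]
  have hπ' : ∀ n, a (π.symm n) = b n := fun n => by rw [← hπ, Equiv.apply_symm_apply]
  have hmem : ∀ {a b : ℕ → ℝ} (ha : Wt a) (hb : Wt b) (π : Equiv.Perm ℕ)
      (hπ : ∀ n, a (π.symm n) = b n) (x : ℕ → ℝ), x ∈ (PP ha).S →
        (fun n => x (π.symm n)) ∈ (PP hb).S := by
    intro a b ha hb π hπ x hx
    obtain ⟨C, hC⟩ := hx
    refine ⟨C, fun w hw => ?_⟩
    rw [hpr']
    exact hC _ (key hb ha π.symm hπ w hw)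
  let f : (PP ha).Space ≃ₗ[ℝ] (PP hb).Space :=
    { toFun := fun x => FLat.of (fun n => x.fn (π.symm n)) (hmem ha hb π hπ' _ x.2)
      invFun := fun y => FLat.of (fun n => y.fn (π n)) (hmem hb ha π.symm (by simpa using hπ) _ y.2)
      left_inv := fun x => by
        refine FLat.Space.ext fun n => ?_
        show x.fn (π.symm (π n)) = x.fn n
        rw [Equiv.symm_apply_apply]
      right_inv := fun y => by
        refine FLat.Space.ext fun n => ?_
        show y.fn (π (π.symm n)) = y.fn n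
        rw [Equiv.apply_symm_apply]
      map_add' := fun x y => rfl
      map_smul' := fun c x => rfl }
  have hn : ∀ x, ‖f x‖ = ‖x‖ := by
    intro x
    refine le_antisymm ?_ ?_
    · refine FLat.norm_le_of _ (norm_nonneg _) fun w hw => ?_
      show pr w (fun n => x.fn (π.symm n)) ≤ _
      rw [hpr']
      exact FLat.pr_le x (key hb ha π.symm hπ' w hw)
    · refine FLat.norm_le_of _ (norm_nonneg _) fun w hw => ?_
      rw [← hpr π]
      exact FLat.pr_le (f x) (key ha hb π hπ w hw)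
  refine ⟨⟨f, hn⟩, fun x => ?_⟩
  constructor
  · intro h n
    have := h (π n)
    have h2 : (f x).fn (π n) = x.fn n := by
      show x.fn (π.symm (π n)) = x.fn n
      rw [Equiv.symm_apply_apply]
    change 0 ≤ (f x).fn (π n) at this
    rw [h2] at this
    exact this
  · intro h n
    exact h (π.symm n)

end Pool.Agent.KS6_37.BL
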